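import Mathlib
import Pool.Agent.Q271.ZC.Def

/-!
# Choice of the variables
-/

set_option autoImplicit false
set_option linter.unusedSectionVars false

namespace Pool.Agent.Q277.ZC

open NumberField Module Pool.Agent.H204R3.CM Pool.Agent.Q271.ZC

section

variable {ι J : Type} [Fintype ι] [Fintype J] {E : ι → Type} [∀ i, Field (E i)]
  [∀ i, NumberField (E i)] {L : Type} [Field L] [NumberField L] (t : J → ι)

/-- The embedding which belongs to a coordinate. -/
def pr (y : XX E t L) : Σ i, (E i →+* L) := ⟨t y.1, y.2⟩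

open Classical in
/-- Variables with given multiplicities. -/
theorem exists_sel (c : (Σ i, (E i →+* L)) → ℕ)
    (hc : ∀ x, c x ≤ Nat.card {a : J // t a = x.1}) (m : ℕ) (hm : ∑ x, c x = 2 * m) :
    ∃ I : Fin m × Fin 2 → XX E t L, Function.Injective I ∧
      ∀ x, (Finset.univ.filter (fun l => pr t (I l) = x)).card = c x := by
  have h1 : ∀ x : (Σ i, (E i →+* L)), ∃ S : Finset (XX E t L),
      S ⊆ Finset.univ.filter (fun y => pr t y = x) ∧ S.card = c x := by
    intro x
    apply Finset.exists_subset_card_eq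
    refine (hc x).trans ?_
    rw [Nat.card_eq_fintype_card, ← Fintype.card_subtype]
    refine Fintype.card_le_of_injective
      (fun a : {a : J // t a = x.1} => (⟨⟨a.1, a.2.symm ▸ x.2⟩, ?_⟩ : {y // pr t y = x})) ?_
    · obtain ⟨a, ha⟩ := a
      obtain ⟨i, φ⟩ := x
      simp only at ha
      subst ha
      rfl
    · intro a a' h
      have h2 := congrArg (fun y : {y : XX E t L // pr t y = x} => y.1.1) h
      exact Subtype.ext h2
  choose S hS hSc using h1
  let T : Finset (XX E t L) := Finset.univ.filter (fun y => y ∈ S (pr t y))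
  have hT : ∀ x, T.filter (fun y => pr t y = x) = S x := by
    intro x
    ext y
    rw [Finset.mem_filter, Finset.mem_filter]
    constructor
    · rintro ⟨⟨_, h2⟩, rfl⟩
      exact h2
    · intro h2
      have h3 := (Finset.mem_filter.1 (hS x h2)).2
      subst h3
      exact ⟨⟨Finset.mem_univ _, h2⟩, rfl⟩
  have hTcard : T.card = 2 * m := by
    rw [Finset.card_eq_sum_card_fiberwise (f := pr t) (t := Finset.univ)
      (fun y _ => Finset.mem_coe.2 (Finset.mem_univ _)), ← hm]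
    refine Finset.sum_congr rfl fun x _ => ?_
    rw [hT, hSc]
  let ε : Fin m × Fin 2 ≃ T := Fintype.equivOfCardEq (by
    rw [Fintype.card_prod, Fintype.card_fin, Fintype.card_fin, Fintype.card_coe, hTcard, mul_comm])
  refine ⟨fun l => (ε l).1, fun l l' h => ε.injective (Subtype.ext h), fun x => ?_⟩
  rw [← hSc, ← hT]
  refine Finset.card_bij (fun l _ => (ε l).1) ?_
    (fun l _ l' _ h => ε.injective (Subtype.ext h)) ?_
  · intro l hl
    exact Finset.mem_filter.2 ⟨(ε l).2, (Finset.mem_filter.1 hl).2⟩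
  · intro y hy
    obtain ⟨hy1, hy2⟩ := Finset.mem_filter.1 hy
    refine ⟨ε.symm ⟨y, hy1⟩, ?_, ?_⟩
    · refine Finset.mem_filter.2 ⟨Finset.mem_univ _, ?_⟩
      change pr t (ε (ε.symm ⟨y, hy1⟩)).1 = x
      rw [Equiv.apply_symm_apply]
      exact hy2
    · rw [Equiv.apply_symm_apply]

theorem sg_mul_self (Φ : ∀ i, Set (E i →+* ℂ)) (j : L →+* ℂ) (x : Σ i, (E i →+* L)) :
    sg Φ j x = 1 ∨ sg Φ j x = -1 := by
  unfold sg
  by_cases h : j.comp x.2 ∈ Φ x.1
  · rw [if_pos h]
    exact Or.inl rfl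
  · rw [if_neg h]
    exact Or.inr rfl

/-- The degree is even. -/
theorem even_of_HVec (Φ : ∀ i, Set (E i →+* ℂ)) (j : L →+* ℂ) (c : (Σ i, (E i →+* L)) → ℕ)
    (hc : HVec Φ j c) : ∃ m, ∑ x, c x = 2 * m := by
  have h1 := hc 1
  have h2 : ∀ x : (Σ i, (E i →+* L)),
      (⟨x.1, ((1 : L ≃ₐ[ℚ] L) : L →+* L).comp x.2⟩ : Σ i, (E i →+* L)) = x := fun x => rfl
  simp only [h2] at h1
  have h3 : (2 : ℤ) ∣ ∑ x, (c x : ℤ) * sg Φ j x - ∑ x, (c x : ℤ) := by
    rw [← Finset.sum_sub_distrib]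
    refine Finset.dvd_sum fun x _ => ?_
    rcases sg_mul_self Φ j x with h | h
    · rw [h, mul_one, sub_self]
      exact dvd_zero _
    · rw [h]
      exact ⟨-(c x : ℤ), by ring⟩
  rw [h1, zero_sub, dvd_neg] at h3
  have h4 : (2 : ℕ) ∣ ∑ x, c x := by
    have h5 : ((2 : ℕ) : ℤ) ∣ ((∑ x, c x : ℕ) : ℤ) := by
      push_cast
      exact h3
    exact Int.natCast_dvd_natCast.1 h5
  obtain ⟨m, hm⟩ := h4
  exact ⟨m, hm⟩

end

end Pool.Agent.Q277.ZC
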