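import Mathlib
import Pool.Agent.H204R3.CM.Coef

/-!
# Uniqueness of the coefficients of rational forms
-/

set_option autoImplicit false
set_option linter.unusedSectionVars false

namespace Pool.Agent.Q277.ZC

open NumberField Module Pool.Agent.H204R3.CM

section

variable {ι J : Type} [Fintype J] {E : ι → Type} [∀ i, Field (E i)] [∀ i, NumberField (E i)]
  {L : Type} [Field L] [NumberField L] (t : J → ι) (j : L →+* ℂ)
  {κ : Type} [Fintype κ] [DecidableEq κ]

/-- A form has the coefficients `c`. -/
def HasCoef (f : (κ → ∀ a, E (t a)) → L) (c : (κ → XX E t L) → L) : Prop :=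
  ∀ v, f v = ∑ I : κ → XX E t L, c I * ∏ l, chi E t L (v l) (I l)

include j in
/-- The coefficients are unique. -/
theorem coef_zero (h : ∀ i, ∀ ψ : E i →+* ℂ, ∃ φ : E i →+* L, j.comp φ = ψ)
    (c : (κ → XX E t L) → L) (hc : HasCoef t (fun _ => 0) c) : c = 0 := by
  classical
  let e : (κ → XX E t L) ≃ (κ → XX E t ℂ) := Equiv.arrowCongr (Equiv.refl κ) (xEquiv t j h)
  have h1 : formOf t (fun I' => j (c (e.symm I'))) = 0 := by
    refine multilinear_ext_span _ _ _ (span_chi t) ?_
    intro v hv
    choose w hw using hv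
    have hv' : v = fun l => chi E t ℂ (w l) := funext fun l => (hw l).symm
    rw [hv', formOf_apply, MultilinearMap.zero_apply]
    have h2 := congrArg j (hc w)
    rw [map_zero, map_sum] at h2
    rw [h2]
    refine (Fintype.sum_equiv e _ _ fun I => ?_).symm
    rw [map_mul, map_prod, Equiv.symm_apply_apply]
    rfl
  funext I
  have h2 := DFunLike.congr_fun h1 (fun l => Pi.single (e I l) (1 : ℂ))
  rw [formOf_single, MultilinearMap.zero_apply, Finset.prod_const_one, mul_one,
    Equiv.symm_apply_apply] at h2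
  exact (map_eq_zero j).1 h2

include j in
theorem coef_unique (h : ∀ i, ∀ ψ : E i →+* ℂ, ∃ φ : E i →+* L, j.comp φ = ψ)
    {f : (κ → ∀ a, E (t a)) → L} {c c' : (κ → XX E t L) → L} (hc : HasCoef t f c)
    (hc' : HasCoef t f c') : c = c' := by
  have h1 : c - c' = 0 := by
    refine coef_zero t j h _ fun v => ?_
    simp only [Pi.sub_apply, sub_mul, Finset.sum_sub_distrib]
    rw [← hc v, ← hc' v, sub_self]
  exact sub_eq_zero.1 h1

end

end Pool.Agent.Q277.ZC
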