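import Mathlib
import Pool.Agent.Q277.ZC.Uniq
import Pool.Agent.Q277.ZC.Sel

/-!
# The rational forms attached to a Hodge monomial
-/

set_option autoImplicit false
set_option linter.unusedSectionVars false

namespace Pool.Agent.Q277.ZC

open NumberField Module Equiv Pool.Agent.H204R3.CM Pool.Agent.Q271.ZC

section

variable {ι J : Type} [Fintype ι] [Fintype J] {E : ι → Type} [∀ i, Field (E i)]
  [∀ i, NumberField (E i)] {L : Type} [Field L] [NumberField L] (t : J → ι)
  {κ : Type} [Fintype κ] [DecidableEq κ]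

/-- A coordinate, as a linear map. -/
noncomputable def chiLin (x : XX E t L) : (∀ a, E (t a)) →ₗ[ℚ] L :=
  (x.2.toRatAlgHom).toLinearMap.comp (LinearMap.proj x.1)

theorem chiLin_apply (x : XX E t L) (w : ∀ a, E (t a)) : chiLin t x w = chi E t L w x := rfl

/-- The action of the Galois group on the coordinates. -/
noncomputable def act (τ : L ≃ₐ[ℚ] L) (x : XX E t L) : XX E t L :=
  ⟨x.1, (τ : L →+* L).comp x.2⟩

theorem chi_act (τ : L ≃ₐ[ℚ] L) (x : XX E t L) (w : ∀ a, E (t a)) :
    chi E t L w (act t τ x) = τ (chi E t L w x) := rfl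

/-- The rational form `Tr (α ∏ l, chi (v l) (I l))`. -/
noncomputable def trForm (I : κ → XX E t L) (α : L) :
    MultilinearMap ℚ (fun _ : κ => ∀ a, E (t a)) ℚ :=
  (Algebra.traceForm ℚ L α).compMultilinearMap
    ((MultilinearMap.mkPiAlgebra ℚ κ L).compLinearMap (fun l => chiLin t (I l)))

theorem trForm_apply (I : κ → XX E t L) (α : L) (v : κ → ∀ a, E (t a)) :
    trForm t I α v = Algebra.trace ℚ L (α * ∏ l, chi E t L (v l) (I l)) := by
  unfold trForm
  rw [LinearMap.compMultilinearMap_apply, MultilinearMap.compLinearMap_apply,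
    MultilinearMap.mkPiAlgebra_apply, Algebra.traceForm_apply]
  rfl

theorem trForm_coe [IsGalois ℚ L] (I : κ → XX E t L) (α : L) (v : κ → ∀ a, E (t a)) :
    ((trForm t I α v : ℚ) : L) =
      ∑ τ : L ≃ₐ[ℚ] L, τ α * ∏ l, chi E t L (v l) (act t τ (I l)) := by
  rw [trForm_apply, ← eq_ratCast (algebraMap ℚ L), trace_eq_sum_automorphisms]
  refine Finset.sum_congr rfl fun τ _ => ?_
  rw [map_mul, map_prod]
  rfl

open Classical in
/-- The coefficients of the alternatization. -/
theorem alt_coef [IsGalois ℚ L] (I₀ : κ → XX E t L) (α : L) :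
    HasCoef t (fun v => ((MultilinearMap.alternatization (trForm t I₀ α) v : ℚ) : L))
      (fun I => ∑ τ : L ≃ₐ[ℚ] L, (∑ σ : Perm κ, if (fun l => act t τ (I₀ l)) = I ∘ σ
        then ((Perm.sign σ : ℤ) : L) else 0) * τ α) := by
  intro v
  have h1 : ((MultilinearMap.alternatization (trForm t I₀ α) v : ℚ) : L) =
      ∑ σ : Perm κ, ((Perm.sign σ : ℤ) : L) *
        ∑ τ : L ≃ₐ[ℚ] L, τ α * ∏ l, chi E t L (v (σ l)) (act t τ (I₀ l)) := by
    rw [MultilinearMap.alternatization_apply, Rat.cast_sum]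
    refine Finset.sum_congr rfl fun σ _ => ?_
    rw [Units.smul_def, zsmul_eq_mul, MultilinearMap.domDomCongr_apply, Rat.cast_mul,
      Rat.cast_intCast, trForm_coe]
  refine h1.trans ?_
  have h2 : ∀ (σ : Perm κ) (τ : L ≃ₐ[ℚ] L), ∏ l, chi E t L (v (σ l)) (act t τ (I₀ l)) =
      ∑ I : κ → XX E t L, if (fun l => act t τ (I₀ l)) = I ∘ σ then
        ∏ l, chi E t L (v l) (I l) else 0 := by
    intro σ τ
    rw [Finset.sum_eq_single (fun l => act t τ (I₀ (σ.symm l)))]
    · rw [if_pos (by funext l; simp)]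
      rw [← Equiv.prod_comp σ (fun l => chi E t L (v l) (act t τ (I₀ (σ.symm l))))]
      simp only [Equiv.symm_apply_apply]
    · intro I _ hI
      rw [if_neg]
      intro h3
      apply hI
      funext l
      have h4 := congrFun h3 (σ.symm l)
      rw [Function.comp_apply, Equiv.apply_symm_apply] at h4
      exact h4.symm
    · intro h3
      exact absurd (Finset.mem_univ _) h3
  simp only [h2, Finset.mul_sum, Finset.sum_mul]
  rw [Finset.sum_congr rfl fun σ _ => Finset.sum_comm, Finset.sum_comm]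
  refine Finset.sum_congr rfl fun I _ => ?_
  rw [Finset.sum_comm]
  refine Finset.sum_congr rfl fun τ _ => Finset.sum_congr rfl fun σ _ => ?_
  by_cases h3 : (fun l => act t τ (I₀ l)) = I ∘ σ
  · rw [if_pos h3, if_pos h3]
    ring
  · rw [if_neg h3, if_neg h3]
    ring

variable {Φ : ∀ i, Set (E i →+* ℂ)} (hΦ : ∀ i, IsCMType (Φ i)) (j : L →+* ℂ)

/-- The real extension of the form. -/
noncomputable def reForm (I : κ → XX E t L) (α : L) :
    MultilinearMap ℝ (fun _ : κ => Tan Φ t) ℝ :=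
  ∑ τ : L ≃ₐ[ℚ] L, (Complex.reLm.comp (LinearMap.mulLeft ℝ (j (τ α)))).compMultilinearMap
    ((MultilinearMap.mkPiAlgebra ℝ κ ℂ).compLinearMap
      (fun l => (LinearMap.proj (R := ℝ) (φ := fun _ : XX E t ℂ => ℂ)
        (⟨(I l).1, (j.comp (τ : L →+* L)).comp (I l).2⟩ : XX E t ℂ)).comp (theta t hΦ)))

theorem reForm_apply (I : κ → XX E t L) (α : L) (u : κ → Tan Φ t) :
    reForm t hΦ j I α u = ∑ τ : L ≃ₐ[ℚ] L, (j (τ α) * ∏ l, theta t hΦ (u l)
      ⟨(I l).1, (j.comp (τ : L →+* L)).comp (I l).2⟩).re := by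
  unfold reForm
  rw [_root_.sum_apply]
  refine Finset.sum_congr rfl fun τ _ => ?_
  rw [LinearMap.compMultilinearMap_apply, MultilinearMap.compLinearMap_apply,
    MultilinearMap.mkPiAlgebra_apply]
  rfl

theorem zpow_sum' {K κ : Type} [Field K] (z : K) (hz : z ≠ 0) (s : Finset κ) (f : κ → ℤ) :
    ∏ l ∈ s, z ^ f l = z ^ (∑ l ∈ s, f l) := by
  classical
  induction s using Finset.induction with
  | empty => rw [Finset.prod_empty, Finset.sum_empty, zpow_zero]
  | insert a s ha ih => rw [Finset.prod_insert ha, Finset.sum_insert ha, zpow_add₀ hz, ih]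

open Classical in
/-- The product of the factors is `1`. -/
theorem prod_dz (z : ℂ) (hz : ‖z‖ = 1) (I : κ → XX E t ℂ)
    (h : ∑ l, (if (I l).2 ∈ Φ (t (I l).1) then (1 : ℤ) else -1) = 0) :
    ∏ l, dz t Φ z (I l) = 1 := by
  have hz0 : z ≠ 0 := by
    rintro rfl
    rw [norm_zero] at hz
    exact zero_ne_one hz
  have h1 : starRingEnd ℂ z = z⁻¹ := by
    have h2 : z * starRingEnd ℂ z = 1 := by
      rw [Complex.mul_conj, Complex.normSq_eq_norm_sq, hz]
      norm_num
    exact eq_inv_of_mul_eq_one_right h2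
  have h2 : ∀ l, dz t Φ z (I l) = z ^ (if (I l).2 ∈ Φ (t (I l).1) then (1 : ℤ) else -1) := by
    intro l
    unfold dz
    by_cases h3 : (I l).2 ∈ Φ (t (I l).1)
    · rw [if_pos h3, if_pos h3, zpow_one]
    · rw [if_neg h3, if_neg h3, h1, zpow_neg_one]
  rw [Finset.prod_congr rfl fun l _ => h2 l, zpow_sum' z hz0, h, zpow_zero]

/-- The number of variables with values at one embedding. -/
theorem sum_letters (c : (Σ i, (E i →+* L)) → ℕ) (I : κ → XX E t L)
    (hI : ∀ x, Nat.card {l // pr t (I l) = x} = c x) (g : (Σ i, (E i →+* L)) → ℤ) :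
    ∑ l, g (pr t (I l)) = ∑ x, (c x : ℤ) * g x := by
  classical
  rw [← Finset.sum_fiberwise_of_maps_to (s := Finset.univ) (t := Finset.univ)
    (g := fun l => pr t (I l)) (fun _ _ => Finset.mem_univ _)]
  refine Finset.sum_congr rfl fun x _ => ?_
  rw [Finset.sum_congr rfl (fun l hl => by rw [(Finset.mem_filter.1 hl).2]), Finset.sum_const,
    nsmul_eq_mul, ← hI x, Nat.card_eq_fintype_card, Fintype.card_subtype]

include hΦ in
/-- The form attached to a Hodge monomial is a Hodge form. -/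
theorem hodge_trForm [IsGalois ℚ L] (c : (Σ i, (E i →+* L)) → ℕ) (hc : HVec Φ j c)
    (I : κ → XX E t L) (hI : ∀ x, Nat.card {l // pr t (I l) = x} = c x) (α : L) :
    HodgeMul (Pool.Agent.H204R3.CM.per Φ t) (trForm t I α) := by
  classical
  refine ⟨reForm t hΦ j I α, fun v => ?_, fun z hz u => ?_⟩
  · rw [reForm_apply]
    have h1 := congrArg j (trForm_coe t I α v)
    rw [map_ratCast, map_sum] at h1
    have h2 := congrArg Complex.re h1
    rw [Complex.re_sum] at h2
    have h3 : ((trForm t I α v : ℚ) : ℂ).re = ((trForm t I α v : ℚ) : ℝ) := by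
      rw [← Complex.ofReal_ratCast, Complex.ofReal_re]
    rw [← h3, h2]
    refine Finset.sum_congr rfl fun τ _ => ?_
    simp only [theta_per, map_mul, map_prod]
    rfl
  · rw [reForm_apply, reForm_apply]
    refine Finset.sum_congr rfl fun τ _ => ?_
    simp only [theta_smul]
    rw [Finset.prod_mul_distrib, prod_dz t z hz (fun l =>
      (⟨(I l).1, (j.comp (τ : L →+* L)).comp (I l).2⟩ : XX E t ℂ)), one_mul]
    have h1 := sum_letters t c I hI (fun x => sg Φ j ⟨x.1, (τ : L →+* L).comp x.2⟩)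
    rw [hc τ] at h1
    exact h1

end

end Pool.Agent.Q277.ZC
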