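import Mathlib
import Pool.Agent.Q271.ZC.Stm
import Pool.Agent.Q277.ZC.Form

/-!
# Exotic Hodge monomials give Hodge classes not generated in degree two: job ZC-HL2
-/

set_option autoImplicit false
set_option linter.unusedSectionVars false

namespace Pool.Agent.Q277.ZC

open NumberField Module Equiv Pool.Agent.H204R3.CM Pool.Agent.Q271.ZC

section

variable {ι J : Type} [Fintype ι] [Fintype J] {E : ι → Type} [∀ i, Field (E i)]
  [∀ i, NumberField (E i)] {L : Type} [Field L] [NumberField L] (t : J → ι) {m : ℕ}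

/-- The coefficients of a wedge product of forms of degree two. -/
theorem prod_coef (B : Fin m → (∀ a, E (t a)) [⋀^Fin 2]→ₗ[ℚ] ℚ) (b : Fin m → (Fin 2 → XX E t L) → L)
    (hb : ∀ l, HasCoef t (fun v => ((B l v : ℚ) : L)) (b l)) :
    HasCoef t (fun v : Fin m × Fin 2 → ∀ a, E (t a) =>
      ((∑ σ : Perm (Fin m × Fin 2), (Perm.sign σ : ℤ) *
        ∏ l, B l ![v (σ (l, 0)), v (σ (l, 1))] : ℚ) : L))
      (fun I => ∑ σ : Perm (Fin m × Fin 2), ((Perm.sign σ : ℤ) : L) *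
        ∏ l, b l (fun ε => I (σ (l, ε)))) := by
  intro v
  simp only [Rat.cast_sum, Rat.cast_mul, Rat.cast_intCast, Rat.cast_prod, Finset.sum_mul]
  rw [Finset.sum_comm]
  refine Finset.sum_congr rfl fun σ _ => ?_
  simp only [mul_assoc]
  rw [← Finset.mul_sum]
  congr 1
  have h1 : ∀ l, ((B l ![v (σ (l, 0)), v (σ (l, 1))] : ℚ) : L) =
      ∑ I : Fin 2 → XX E t L, b l I * ∏ ε, chi E t L (v (σ (l, ε))) (I ε) := by
    intro l
    refine (hb l ![v (σ (l, 0)), v (σ (l, 1))]).trans ?_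
    refine Finset.sum_congr rfl fun I _ => ?_
    rw [Fin.prod_univ_two, Fin.prod_univ_two]
    rfl
  rw [Finset.prod_congr rfl fun l _ => h1 l, Finset.prod_univ_sum, Fintype.piFinset_univ]
  let e : (Fin m → Fin 2 → XX E t L) ≃ (Fin m × Fin 2 → XX E t L) :=
    (Equiv.curry (Fin m) (Fin 2) (XX E t L)).symm.trans (Equiv.arrowCongr σ (Equiv.refl _))
  refine Fintype.sum_equiv e _ _ fun I => ?_
  have h2 : ∀ x : Fin m × Fin 2, e I (σ x) = I x.1 x.2 := by
    intro x
    change I (σ.symm (σ x)).1 (σ.symm (σ x)).2 = _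
    rw [Equiv.symm_apply_apply]
  rw [Finset.prod_mul_distrib, ← Equiv.prod_comp σ (fun x => chi E t L (v x) (e I x)),
    Fintype.prod_prod_type]
  simp only [h2]

end

/-- JOB ZC-HL2. -/
theorem hl2 : Pool.Agent.Q271.ZC.S_HL2 := by
  classical
  intro ι J _ _ E _ _ _ L _ _ _ Φ t j hΦ h hred c hc hle hne hgen
  obtain ⟨m, hm⟩ := even_of_HVec Φ j c hc
  obtain ⟨I₀, hinj, hcount⟩ := exists_sel t c hle m hm
  have hcount' : ∀ x, Nat.card {l // pr t (I₀ l) = x} = c x := by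
    intro x
    rw [Nat.card_eq_fintype_card, Fintype.card_subtype, ← hcount x]
  -- the choice of `α`
  let ε : (L ≃ₐ[ℚ] L) → L := fun τ => ∑ σ : Perm (Fin m × Fin 2),
    if (fun l => act t τ (I₀ l)) = I₀ ∘ σ then ((Perm.sign σ : ℤ) : L) else 0
  have hε1 : ε 1 = 1 := by
    simp only [ε]
    rw [Finset.sum_eq_single 1]
    · rw [if_pos (show (fun l => act t (1 : L ≃ₐ[ℚ] L) (I₀ l)) =
        I₀ ∘ ⇑(1 : Perm (Fin m × Fin 2)) from rfl), Perm.sign_one, Units.val_one, Int.cast_one]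
    · intro σ _ hσ
      rw [if_neg]
      intro h1
      apply hσ
      refine Equiv.ext fun l => ?_
      have h2 := congrFun h1 l
      exact hinj h2.symm
    · intro h1
      exact absurd (Finset.mem_univ _) h1
  have hα : ∃ α : L, ∑ τ : L ≃ₐ[ℚ] L, ε τ * τ α ≠ 0 := by
    by_contra hcon
    push Not at hcon
    have h1 : LinearIndependent L (fun τ : L ≃ₐ[ℚ] L => ((τ : L →* L) : L → L)) :=
      (linearIndependent_monoidHom L L).comp (fun τ : L ≃ₐ[ℚ] L => (τ : L →* L)) (by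
        intro τ τ' hττ
        ext x
        exact DFunLike.congr_fun hττ x)
    have h2 := Fintype.linearIndependent_iff.1 h1 ε (by
      funext x
      rw [Finset.sum_apply]
      exact hcon x) 1
    rw [hε1] at h2
    exact one_ne_zero h2
  obtain ⟨α, hα⟩ := hα
  have hmem := hgen m (MultilinearMap.alternatization (trForm t I₀ α))
    (hodge_trForm t hΦ j c hc I₀ hcount' α).alternatization
  -- some product has a coefficient which is not zero
  have hex : ∃ g ∈ {g : (∀ j, E (t j)) [⋀^Fin m × Fin 2]→ₗ[ℚ] ℚ |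
      ∃ B : Fin m → (∀ j, E (t j)) [⋀^Fin 2]→ₗ[ℚ] ℚ,
        (∀ l, IsHodge (Pool.Agent.H204R3.CM.per Φ t) (B l)) ∧
        ∀ v, g v = ∑ σ : Equiv.Perm (Fin m × Fin 2), (Equiv.Perm.sign σ : ℤ) *
          ∏ l, B l ![v (σ (l, 0)), v (σ (l, 1))]},
      ∃ c', HasCoef t (fun v => ((g v : ℚ) : L)) c' ∧ c' I₀ ≠ 0 := by
    by_contra hcon
    push Not at hcon
    have key : ∀ g ∈ Submodule.span ℚ {g : (∀ j, E (t j)) [⋀^Fin m × Fin 2]→ₗ[ℚ] ℚ |
      ∃ B : Fin m → (∀ j, E (t j)) [⋀^Fin 2]→ₗ[ℚ] ℚ,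
        (∀ l, IsHodge (Pool.Agent.H204R3.CM.per Φ t) (B l)) ∧
        ∀ v, g v = ∑ σ : Equiv.Perm (Fin m × Fin 2), (Equiv.Perm.sign σ : ℤ) *
          ∏ l, B l ![v (σ (l, 0)), v (σ (l, 1))]},
        ∃ c', HasCoef t (fun v => ((g v : ℚ) : L)) c' ∧ c' I₀ = 0 := by
      intro g hg
      induction hg using Submodule.span_induction with
      | mem g hg =>
        obtain ⟨c', hc'⟩ := form_coeff t j h g.toMultilinearMap
        exact ⟨c', hc', hcon g hg c' hc'⟩
      | zero =>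
        refine ⟨0, fun v => ?_, rfl⟩
        simp
      | add a b _ _ ha hb =>
        obtain ⟨ca, ha1, ha2⟩ := ha
        obtain ⟨cb, hb1, hb2⟩ := hb
        refine ⟨ca + cb, fun v => ?_, ?_⟩
        · simp only [AlternatingMap.add_apply, Rat.cast_add, Pi.add_apply, add_mul,
            Finset.sum_add_distrib]
          rw [← ha1 v, ← hb1 v]
        · rw [Pi.add_apply, ha2, hb2, add_zero]
      | smul r a _ ha =>
        obtain ⟨ca, ha1, ha2⟩ := ha
        refine ⟨(r : L) • ca, fun v => ?_, ?_⟩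
        · simp only [AlternatingMap.smul_apply, smul_eq_mul, Rat.cast_mul, Pi.smul_apply, mul_assoc]
          rw [← Finset.mul_sum, ← ha1 v]
        · rw [Pi.smul_apply, ha2, smul_zero]
    obtain ⟨c', hc', hc0⟩ := key _ hmem
    have h1 := coef_unique t j h hc' (alt_coef t I₀ α)
    rw [h1] at hc0
    exact hα hc0
  obtain ⟨g, ⟨B, hB, hgB⟩, c', hc', hc0⟩ := hex
  have hb : ∀ l, ∃ b : (Fin 2 → XX E t L) → L, HasCoef t (fun v => ((B l v : ℚ) : L)) b :=
    fun l => form_coeff t j h (B l).toMultilinearMap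
  choose b hb using hb
  have h1 := coef_unique t j h hc' (by
    intro v
    simp only [hgB]
    exact prod_coef t B b hb v)
  rw [h1] at hc0
  obtain ⟨σ, _, hσ⟩ := Finset.exists_ne_zero_of_sum_ne_zero hc0
  have hσ' := right_ne_zero_of_mul hσ
  have hneg : ∀ (y : Σ i, (E i →+* L)) (τ : L ≃ₐ[ℚ] L),
      sg Φ j ⟨(bar y).1, (τ : L →+* L).comp (bar y).2⟩ =
        -sg Φ j ⟨y.1, (τ : L →+* L).comp y.2⟩ := by
    intro y τ
    have h3 : j.comp ((τ : L →+* L).comp (cbar y.2)) =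
        ComplexEmbedding.conjugate (j.comp ((τ : L →+* L).comp y.2)) := by
      rw [← comp_cbar]
      rfl
    change (if j.comp ((τ : L →+* L).comp (cbar y.2)) ∈ Φ y.1 then (1 : ℤ) else -1) =
      -(if j.comp ((τ : L →+* L).comp y.2) ∈ Φ y.1 then (1 : ℤ) else -1)
    rw [h3]
    by_cases h4 : j.comp ((τ : L →+* L).comp y.2) ∈ Φ y.1
    · rw [if_pos h4, if_neg ((hΦ y.1 _).1 h4)]
    · rw [if_neg h4, if_pos (conj_mem hΦ h4), neg_neg]
  have hpair : ∀ l, pr t (I₀ (σ (l, 0))) = bar (pr t (I₀ (σ (l, 1)))) := by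
    intro l
    have h2 := (Finset.prod_ne_zero_iff.1 hσ') l (Finset.mem_univ _)
    apply hred
    intro τ
    rw [hneg]
    have h3 := balanced_of_hodge t j hΦ h (B l) (hB l) (b l) (hb l) _ h2 τ
    rw [Fin.sum_univ_two] at h3
    change (sg Φ j ⟨(pr t (I₀ (σ (l, 0)))).1, (τ : L →+* L).comp (pr t (I₀ (σ (l, 0)))).2⟩) +
      (sg Φ j ⟨(pr t (I₀ (σ (l, 1)))).1, (τ : L →+* L).comp (pr t (I₀ (σ (l, 1)))).2⟩) = 0 at h3
    linarith
  have hbb : ∀ y : Σ i, (E i →+* L), bar (bar y) = y := by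
    rintro ⟨i, φ⟩
    change (⟨i, cbar (cbar φ)⟩ : Σ i, (E i →+* L)) = ⟨i, φ⟩
    rw [cbar_cbar]
  obtain ⟨x, hx⟩ := hne
  apply hx
  rw [← hcount, ← hcount]
  let sw : Perm (Fin m × Fin 2) := Equiv.prodCongr (Equiv.refl _) (Equiv.swap 0 1)
  have hsw : ∀ l, pr t (I₀ (σ l)) = bar (pr t (I₀ (σ (sw l)))) := by
    rintro ⟨l, i⟩
    fin_cases i
    · exact hpair l
    · change pr t (I₀ (σ (l, 1))) = bar (pr t (I₀ (σ (l, 0))))
      rw [hpair l, hbb]
  have hsw2 : ∀ l, sw (sw l) = l := by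
    rintro ⟨l, i⟩
    fin_cases i <;> rfl
  refine Finset.card_bij' (fun l _ => σ (sw (σ.symm l))) (fun l _ => σ (sw (σ.symm l))) ?_ ?_ ?_ ?_
  · intro l hl
    have h2 := (Finset.mem_filter.1 hl).2
    refine Finset.mem_filter.2 ⟨Finset.mem_univ _, ?_⟩
    have h3 := hsw (σ.symm l)
    rw [Equiv.apply_symm_apply, h2] at h3
    have h4 := congrArg bar h3
    rw [hbb, hbb] at h4
    exact h4.symm
  · intro l hl
    have h2 := (Finset.mem_filter.1 hl).2
    refine Finset.mem_filter.2 ⟨Finset.mem_univ _, ?_⟩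
    have h3 := hsw (σ.symm l)
    rw [Equiv.apply_symm_apply, h2] at h3
    have h4 := congrArg bar h3
    rw [hbb] at h4
    exact h4.symm
  · intro l _
    simp only [Equiv.symm_apply_apply, hsw2, Equiv.apply_symm_apply]
  · intro l _
    simp only [Equiv.symm_apply_apply, hsw2, Equiv.apply_symm_apply]

end Pool.Agent.Q277.ZC
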