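import Mathlib
import Pool.Agent.Q271.ZC.Stm

/-!
# Multiplicative relations between Weil numbers: job ZC-KR
-/

set_option autoImplicit false

namespace Pool.Agent.Q277.ZC

open NumberField Module
open scoped Pointwise

section

variable {L : Type} [Field L] [NumberField L]

theorem smul_span (σ : L ≃ₐ[ℚ] L) (x : 𝓞 L) :
    σ • (Ideal.span {x} : Ideal (𝓞 L)) = Ideal.span {σ • x} := by
  rw [Ideal.pointwise_smul_def, Ideal.map_span, Set.image_singleton]
  rfl

theorem emult_smul (σ : L ≃ₐ[ℚ] L) (I J : Ideal (𝓞 L)) :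
    emultiplicity (σ • I) (σ • J) = emultiplicity I J := by
  rw [emultiplicity_eq_emultiplicity_iff]
  intro n
  rw [← smul_pow', Ideal.dvd_iff_le, Ideal.dvd_iff_le]
  exact Ideal.pointwise_smul_le_pointwise_smul_iff

theorem fin_mult {v : Ideal (𝓞 L)} (hv : Prime v) {x : 𝓞 L} (hx : x ≠ 0) :
    FiniteMultiplicity v (Ideal.span {x}) := by
  apply FiniteMultiplicity.of_not_isUnit hv.not_isUnit
  intro h
  exact hx (Ideal.span_singleton_eq_bot.1 h)

theorem mult_prod {v : Ideal (𝓞 L)} (hv : Prime v) {Ω : Type} (s : Finset Ω) (α : Ω → 𝓞 L)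
    (k : Ω → ℕ) (hα : ∀ x, α x ≠ 0) :
    multiplicity v (Ideal.span {∏ x ∈ s, α x ^ k x}) =
      ∑ x ∈ s, k x * multiplicity v (Ideal.span {α x}) := by
  classical
  induction s using Finset.induction with
  | empty =>
    rw [Finset.prod_empty, Finset.sum_empty, Ideal.span_singleton_one, ← Ideal.one_eq_top]
    exact multiplicity_of_one_right hv.not_isUnit
  | insert a s ha ih =>
    rw [Finset.prod_insert ha, Finset.sum_insert ha, ← ih, ← Ideal.span_singleton_mul_span_singleton,
      multiplicity_mul hv, ← Ideal.span_singleton_pow, (fin_mult hv (hα a)).multiplicity_pow hv]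
    rw [Ideal.span_singleton_mul_span_singleton]
    apply fin_mult hv
    exact mul_ne_zero (pow_ne_zero _ (hα a)) (Finset.prod_ne_zero_iff.2 fun x _ =>
      pow_ne_zero _ (hα x))

end

/-- JOB ZC-KR. -/
theorem kr : Pool.Agent.Q271.ZC.S_KR := by
  classical
  intro L _ _ _ p a v hp ha hv hpv Ω _ α br habs hbr hroot c
  have hp0 : (p : 𝓞 L) ≠ 0 := Nat.cast_ne_zero.2 hp.ne_zero
  have hv0 : v ≠ ⊥ := by
    rintro rfl
    exact hp0 (Ideal.mem_bot.1 hpv)
  have hvp : Prime v := Ideal.prime_of_isPrime hv0 hv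
  have hα0 : ∀ x, α x ≠ 0 := by
    intro x h
    have h1 := hbr x
    rw [h, zero_mul] at h1
    exact pow_ne_zero _ hp0 h1.symm
  have hmA : ∀ σ : L ≃ₐ[ℚ] L, multiplicity v (Ideal.span {σ • ∏ x, α x ^ (2 * c x)}) =
      ∑ x, (2 * c x) * multiplicity v (Ideal.span {σ • α x}) := by
    intro σ
    rw [← mult_prod hvp Finset.univ (fun x => σ • α x) (fun x => 2 * c x)
      (fun x => (smul_ne_zero_iff_ne σ).2 (hα0 x))]
    congr 2
    rw [Finset.smul_prod']
    simp only [smul_pow']
  have hmB : ∀ σ : L ≃ₐ[ℚ] L, multiplicity v (Ideal.span {σ • (((p : 𝓞 L) ^ a) ^ (∑ x, c x))}) =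
      ∑ x, c x * (a * multiplicity v (Ideal.span {(p : 𝓞 L)})) := by
    intro σ
    have h1 : σ • (((p : 𝓞 L) ^ a) ^ (∑ x, c x)) = (p : 𝓞 L) ^ (a * ∑ x, c x) := by
      rw [← pow_mul, smul_pow']
      congr 1
      exact map_natCast (MulSemiringAction.toRingHom (L ≃ₐ[ℚ] L) (𝓞 L) σ) p
    rw [h1, ← Ideal.span_singleton_pow, (fin_mult hvp hp0).multiplicity_pow hvp, ← Finset.sum_mul]
    ring
  have hsum : ∀ σ : L ≃ₐ[ℚ] L, (∑ x, (c x : ℤ) * (2 * (multiplicity v (Ideal.span {σ • α x}) : ℤ) -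
      a * multiplicity v (Ideal.span {(p : 𝓞 L)})) = 0 ↔
      multiplicity v (Ideal.span {σ • ∏ x, α x ^ (2 * c x)}) =
        multiplicity v (Ideal.span {σ • (((p : 𝓞 L) ^ a) ^ (∑ x, c x))})) := by
    intro σ
    rw [hmA, hmB, ← Int.natCast_inj (m := ∑ x, (2 * c x) * multiplicity v (Ideal.span {σ • α x})),
      ← sub_eq_zero (b := ((∑ x, c x * (a * multiplicity v (Ideal.span {(p : 𝓞 L)})) : ℕ) : ℤ))]
    push_cast
    rw [← Finset.sum_sub_distrib]
    have h1 : ∀ x, (c x : ℤ) * (2 * (multiplicity v (Ideal.span {σ • α x}) : ℤ) -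
      a * multiplicity v (Ideal.span {(p : 𝓞 L)})) =
      2 * (c x : ℤ) * (multiplicity v (Ideal.span {σ • α x}) : ℤ) -
        (c x : ℤ) * ((a : ℤ) * (multiplicity v (Ideal.span {(p : 𝓞 L)}) : ℤ)) := fun x => by ring
    rw [Finset.sum_congr rfl fun x _ => h1 x]
  have hA0 : ∏ x, α x ^ (2 * c x) ≠ 0 := Finset.prod_ne_zero_iff.2 fun x _ =>
    pow_ne_zero _ (hα0 x)
  have hB0 : ((p : 𝓞 L) ^ a) ^ (∑ x, c x) ≠ 0 := pow_ne_zero _ (pow_ne_zero _ hp0)
  constructor
  · intro h σ
    rw [hsum, h]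
  · intro h
    have hem : ∀ w : Ideal (𝓞 L), Prime w →
        emultiplicity w (Ideal.span {∏ x, α x ^ (2 * c x)}) =
          emultiplicity w (Ideal.span {((p : 𝓞 L) ^ a) ^ (∑ x, c x)}) := by
      intro w hw
      have hwp : w.IsPrime := Ideal.isPrime_of_prime hw
      by_cases hpw : (p : 𝓞 L) ∈ w
      · have hpZ : (Ideal.span {(p : ℤ)}).IsMaximal :=
          (Ideal.isPrime_of_prime (Ideal.prime_span_singleton_iff.mpr
            (Nat.prime_iff_prime_int.mp hp))).isMaximal (by simp [hp.ne_zero])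
        have hlies : ∀ u : Ideal (𝓞 L), u.IsPrime → (p : 𝓞 L) ∈ u →
            u.LiesOver (Ideal.span {(p : ℤ)}) := by
          intro u hu hpu
          refine ⟨hpZ.eq_of_le ?_ ?_⟩
          · exact (Ideal.IsPrime.under ℤ u).ne_top
          · rw [Ideal.span_singleton_le_iff_mem]
            change algebraMap ℤ (𝓞 L) (p : ℤ) ∈ u
            rw [map_natCast]
            exact hpu
        have := hlies v hv hpv
        have := hlies w hwp hpw
        obtain ⟨σ, hσ⟩ := Ideal.exists_smul_eq_of_isGaloisGroup (Ideal.span {(p : ℤ)}) w v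
          (L ≃ₐ[ℚ] L)
        rw [← emult_smul σ, ← emult_smul σ w (Ideal.span {((p : 𝓞 L) ^ a) ^ (∑ x, c x)}), hσ,
          smul_span, smul_span]
        rw [(fin_mult hvp ((smul_ne_zero_iff_ne σ).2 hA0)).emultiplicity_eq_multiplicity,
          (fin_mult hvp ((smul_ne_zero_iff_ne σ).2 hB0)).emultiplicity_eq_multiplicity,
          (hsum σ).1 (h σ)]
      · have hαw : ∀ x, α x ∉ w := by
          intro x hx
          have h1 : (p : 𝓞 L) ^ a ∈ w := by
            rw [← hbr x]
            exact Ideal.mul_mem_right _ _ hx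
          exact hpw (hwp.mem_of_pow_mem _ h1)
        rw [emultiplicity_eq_zero.2, emultiplicity_eq_zero.2]
        · intro h1
          rw [Ideal.dvd_span_singleton] at h1
          exact hpw (hwp.mem_of_pow_mem _ (hwp.mem_of_pow_mem _ h1))
        · intro h1
          rw [Ideal.dvd_span_singleton, hwp.prod_mem_iff] at h1
          obtain ⟨x, _, hx⟩ := h1
          exact hαw x (hwp.mem_of_pow_mem _ hx)
    have hspan : (Ideal.span {∏ x, α x ^ (2 * c x)} : Ideal (𝓞 L)) =
        Ideal.span {((p : 𝓞 L) ^ a) ^ (∑ x, c x)} := by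
      apply dvd_antisymm
      · rw [UniqueFactorizationMonoid.dvd_iff_emultiplicity_le]
        · intro w hw
          rw [hem w hw]
        · intro h1
          exact hA0 (Ideal.span_singleton_eq_bot.1 h1)
      · rw [UniqueFactorizationMonoid.dvd_iff_emultiplicity_le]
        · intro w hw
          rw [hem w hw]
        · intro h1
          exact hB0 (Ideal.span_singleton_eq_bot.1 h1)
    obtain ⟨u, hu⟩ := Ideal.span_singleton_eq_span_singleton.1 hspan
    have hαL : ∀ x, (α x : L) ≠ 0 := fun x h1 => hα0 x (RingOfIntegers.coe_eq_zero_iff.1 h1)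
    have huL : (∏ x, (α x : L) ^ (2 * c x)) * ((u : 𝓞 L) : L) = ((p : L) ^ a) ^ (∑ x, c x) := by
      have h1 := congrArg (fun t : 𝓞 L => (t : L)) hu
      simp only [map_mul, map_prod, map_pow, map_natCast] at h1
      exact h1
    have hnorm : ∀ φ : L →+* ℂ, ‖φ ((u : 𝓞 L) : L)‖ = 1 := by
      intro φ
      have h1 := congrArg (fun t : L => ‖φ t‖) huL
      simp only [map_mul, map_prod, map_pow, map_natCast, norm_mul, norm_prod, norm_pow,
        Complex.norm_natCast] at h1
      have h2 : ∏ x, ‖φ (α x : L)‖ ^ (2 * c x) = ((p : ℝ) ^ a) ^ (∑ x, c x) := by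
        rw [← Finset.prod_pow_eq_pow_sum]
        refine Finset.prod_congr rfl fun x _ => ?_
        rw [pow_mul, habs]
      rw [h2] at h1
      have h3 : ((p : ℝ) ^ a) ^ (∑ x, c x) ≠ 0 :=
        pow_ne_zero _ (pow_ne_zero _ (Nat.cast_ne_zero.2 hp.ne_zero))
      exact mul_left_cancel₀ h3 (by rw [h1, mul_one])
    obtain ⟨N, hN, huN⟩ := Embeddings.pow_eq_one_of_norm_eq_one L ℂ
      (RingOfIntegers.isIntegral_coe (u : 𝓞 L)) hnorm
    let n : Ω → ℤ := fun x => ((∑ y, if br y = x then c y else 0 : ℕ) : ℤ) - (c x : ℤ)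
    have hun : ((u : 𝓞 L) : L) = ∏ x, (α x : L) ^ n x := by
      have hP : ∏ x, (α x : L) ^ (2 * c x) ≠ 0 := Finset.prod_ne_zero_iff.2 fun x _ =>
        pow_ne_zero _ (hαL x)
      apply mul_left_cancel₀ hP
      rw [huL, ← Finset.prod_pow_eq_pow_sum]
      have h1 : ∀ x, (α x : L) ^ n x =
          (∏ y, if br y = x then (α x : L) ^ c y else 1) * ((α x : L) ^ c x)⁻¹ := by
        intro x
        simp only [n]
        rw [zpow_sub₀ (hαL x), zpow_natCast, zpow_natCast, div_eq_mul_inv,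
          ← Finset.prod_pow_eq_pow_sum]
        congr 1
        refine Finset.prod_congr rfl fun y _ => ?_
        by_cases h2 : br y = x
        · rw [if_pos h2, if_pos h2]
        · rw [if_neg h2, if_neg h2, pow_zero]
      rw [Finset.prod_congr rfl fun x _ => h1 x, Finset.prod_mul_distrib, Finset.prod_comm]
      have h2 : ∀ y, (∏ x, if br y = x then (α x : L) ^ c y else 1) = (α (br y) : L) ^ c y := by
        intro y
        rw [Finset.prod_ite_eq Finset.univ (br y), if_pos (Finset.mem_univ _)]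
      rw [Finset.prod_congr rfl fun y _ => h2 y, ← Finset.prod_mul_distrib,
        ← Finset.prod_mul_distrib]
      refine Finset.prod_congr rfl fun x _ => ?_
      have h3 : (α x : L) * (α (br x) : L) = (p : L) ^ a := by
        have h4 := congrArg (fun t : 𝓞 L => (t : L)) (hbr x)
        simp only [map_mul, map_pow, map_natCast] at h4
        exact h4
      rw [← h3, mul_pow]
      have h5 : (α x : L) ^ c x ≠ 0 := pow_ne_zero _ (hαL x)
      field_simp
      ring
    have hu1 : ((u : 𝓞 L) : L) = 1 := by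
      rw [hun]
      apply hroot n N hN
      rw [← hun, huN]
    have hu2 : (u : 𝓞 L) = 1 := RingOfIntegers.ext (by rw [hu1]; rfl)
    rw [← hu, hu2, mul_one]

end Pool.Agent.Q277.ZC
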