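import Mathlib

/-!
# A basis of eigenvectors of the powers of a semisimple endomorphism
-/

set_option autoImplicit false

namespace Pool.Agent.Q277.ZC

open Module

/-- A basis of eigenvectors of `F` on `V ^ n`; each eigenvalue occurs `n` times as often as in the
characteristic polynomial of `F`. -/
theorem exists_eigenbasis {K V : Type} [Field K] [IsAlgClosed K] [AddCommGroup V] [Module K V]
    [FiniteDimensional K V] (F : V →ₗ[K] V) (hF : Module.End.IsSemisimple F) (n : ℕ) :
    ∃ (X : Type) (_ : Fintype X) (e : Basis X K (Fin n → V)) (z : X → K),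
      (∀ x, F.compLeft (Fin n) (e x) = z x • e x) ∧
        ∀ w : K, Nat.card {x // z x = w} = n * F.charpoly.rootMultiplicity w := by
  classical
  have hint : DirectSum.IsInternal (fun μ : K => Module.End.eigenspace F μ) :=
    DirectSum.isInternal_submodule_of_iSupIndep_of_iSup_eq_top
      (Module.End.eigenspaces_iSupIndep F) hF.iSup_eigenspace_eq_top
  let b := hint.collectedBasis (fun μ => Module.finBasis K (Module.End.eigenspace F μ))
  have : Fintype (Σ μ : K, Fin (finrank K (Module.End.eigenspace F μ))) :=
    FiniteDimensional.fintypeBasisIndex b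
  have hb : ∀ i, F (b i) = i.1 • b i := by
    intro i
    exact Module.End.mem_eigenspace_iff.1 (hint.collectedBasis_mem _ i)
  have hch : F.charpoly = ∏ i : (Σ μ : K, Fin (finrank K (Module.End.eigenspace F μ))),
      (Polynomial.X - Polynomial.C i.1) := by
    have h1 : LinearMap.toMatrix b b F =
        Matrix.diagonal (fun i : (Σ μ : K, Fin (finrank K (Module.End.eigenspace F μ))) => i.1) := by
      ext i j
      rw [LinearMap.toMatrix_apply, hb, map_smul, Basis.repr_self, Finsupp.smul_single,
        Finsupp.single_apply, Matrix.diagonal_apply]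
      by_cases h : i = j
      · subst h
        simp
      · rw [if_neg (fun h' => h h'.symm), if_neg h]
    rw [← LinearMap.charpoly_toMatrix F b, h1, Matrix.charpoly_diagonal]
  refine ⟨Σ _ : Fin n, (Σ μ : K, Fin (finrank K (Module.End.eigenspace F μ))), inferInstance,
    Pi.basis (fun _ => b), fun x => x.2.1, ?_, ?_⟩
  · rintro ⟨k, i⟩
    rw [Pi.basis_apply]
    funext k'
    rw [LinearMap.compLeft_apply, Pi.smul_apply]
    by_cases h : k' = k
    · subst h
      simp only [Function.comp_apply, Pi.single_eq_same]
      exact hb i
    · simp only [Function.comp_apply, Pi.single_eq_of_ne h, map_zero, smul_zero]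
  · intro w
    have h1 : (∏ i : (Σ μ : K, Fin (finrank K (Module.End.eigenspace F μ))),
        (Polynomial.X - Polynomial.C i.1)).roots =
        (Finset.univ : Finset (Σ μ : K, Fin (finrank K (Module.End.eigenspace F μ)))).val.map
          Sigma.fst := by
      rw [Finset.prod_eq_multiset_prod, ← Polynomial.roots_multiset_prod_X_sub_C
        ((Finset.univ : Finset (Σ μ : K, Fin (finrank K (Module.End.eigenspace F μ)))).val.map
          Sigma.fst), Multiset.map_map]
      rfl
    rw [hch, ← Polynomial.count_roots, h1, Multiset.count_map]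
    let E : {x : Σ _ : Fin n, (Σ μ : K, Fin (finrank K (Module.End.eigenspace F μ))) // x.2.1 = w} ≃
        Fin n × {i : (Σ μ : K, Fin (finrank K (Module.End.eigenspace F μ))) // w = i.1} :=
      { toFun := fun x => (x.1.1, ⟨x.1.2, x.2.symm⟩)
        invFun := fun y => ⟨⟨y.1, y.2.1⟩, y.2.2.symm⟩
        left_inv := fun _ => rfl
        right_inv := fun _ => rfl }
    rw [Nat.card_congr E, Nat.card_prod, Nat.card_eq_fintype_card, Fintype.card_fin,
      Nat.card_eq_fintype_card, Fintype.card_subtype]
    rfl

end Pool.Agent.Q277.ZC
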