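import Mathlib

/-!
# Matching the letters of a word symmetric under `z ↦ q / z`
-/

set_option autoImplicit false

namespace Pool.Agent.Q277.ZC

/-- A word in which `w` occurs as often as `q / w`, of length `2 m` and with product `q ^ m`, splits
into pairs with product `q`. -/
theorem matching_aux {K κ : Type} [Field K] [CharZero K] [DecidableEq K] [DecidableEq κ] (q : K)
    (hq : q ≠ 0) (a : κ → K) : ∀ (m : ℕ) (T : Finset κ), T.card = 2 * m → ∏ l ∈ T, a l = q ^ m →
    (∀ w, (T.filter (fun l => a l = w)).card = (T.filter (fun l => a l = q / w)).card) →
    ∃ g : Fin m × Fin 2 → κ, Function.Injective g ∧ (∀ x, g x ∈ T) ∧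
      ∀ s, a (g (s, 0)) * a (g (s, 1)) = q := by
  intro m
  induction m with
  | zero =>
    intro T _ _ _
    refine ⟨fun x => x.1.elim0, fun x => x.1.elim0, fun x => x.1.elim0, fun s => s.elim0⟩
  | succ m ih =>
    intro T hT hprod hcount
    have h0 : ∀ l ∈ T, a l ≠ 0 := by
      intro l hl h
      have h1 : ∏ l ∈ T, a l = 0 := Finset.prod_eq_zero hl h
      rw [hprod] at h1
      exact pow_ne_zero _ hq h1
    -- it is enough to find one pair
    have step : ∀ l ∈ T, ∀ l' ∈ T, l ≠ l' → a l * a l' = q →
        ∃ g : Fin (m + 1) × Fin 2 → κ, Function.Injective g ∧ (∀ x, g x ∈ T) ∧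
          ∀ s, a (g (s, 0)) * a (g (s, 1)) = q := by
      intro l hl l' hl' hne hll
      have hl1 : l' ∈ T.erase l := Finset.mem_erase.2 ⟨hne.symm, hl'⟩
      have hal : a l' = q / a l := by
        rw [eq_div_iff (h0 l hl), mul_comm, hll]
      have hal' : a l = q / a l' := by
        rw [eq_div_iff (h0 l' hl'), hll]
      obtain ⟨g, hg, hgT, hgq⟩ := ih ((T.erase l).erase l') (by
          rw [Finset.card_erase_of_mem hl1, Finset.card_erase_of_mem hl, hT]
          omega) (by
          have h1 := Finset.mul_prod_erase T a hl
          have h2 := Finset.mul_prod_erase (T.erase l) a hl1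
          have h3 : q * ∏ x ∈ (T.erase l).erase l', a x = q * q ^ m := by
            rw [← pow_succ', ← hprod, ← h1, ← h2, ← hll]
            ring
          exact mul_left_cancel₀ hq h3) (by
          intro w
          have key : ∀ w : K, (((T.erase l).erase l').filter (fun x => a x = w)).card +
              ((if a l = w then 1 else 0) + (if a l' = w then 1 else 0)) =
              (T.filter (fun x => a x = w)).card := by
            intro w
            have h1 : T = insert l (insert l' ((T.erase l).erase l')) := by
              rw [Finset.insert_erase hl1, Finset.insert_erase hl]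
            have h2 : l' ∉ (T.erase l).erase l' := Finset.notMem_erase _ _
            have h3 : l ∉ insert l' ((T.erase l).erase l') := by
              rw [Finset.insert_erase hl1]
              exact Finset.notMem_erase _ _
            conv_rhs => rw [h1]
            rw [Finset.filter_insert, Finset.filter_insert]
            have h4 : l' ∉ ((T.erase l).erase l').filter (fun x => a x = w) := fun h =>
              h2 (Finset.mem_filter.1 h).1
            have h5 : l ∉ ((T.erase l).erase l').filter (fun x => a x = w) := fun h =>
              h3 (Finset.mem_insert_of_mem (Finset.mem_filter.1 h).1)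
            have h6 : l ∉ insert l' (((T.erase l).erase l').filter (fun x => a x = w)) := fun h => by
              rcases Finset.mem_insert.1 h with h | h
              · exact hne h
              · exact h5 h
            by_cases c1 : a l = w <;> by_cases c2 : a l' = w
            · rw [if_pos c1, if_pos c2, if_pos c1, if_pos c2, Finset.card_insert_of_notMem h6,
                Finset.card_insert_of_notMem h4]
            · rw [if_pos c1, if_neg c2, if_pos c1, if_neg c2, Finset.card_insert_of_notMem h5]
            · rw [if_neg c1, if_pos c2, if_neg c1, if_pos c2, Finset.card_insert_of_notMem h4]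
            · rw [if_neg c1, if_neg c2, if_neg c1, if_neg c2]
              rfl
          have h1 := key w
          have h2 := key (q / w)
          have h3 := hcount w
          have h4 : ((if a l = w then 1 else 0) + (if a l' = w then 1 else 0) : ℕ) =
              (if a l = q / w then 1 else 0) + (if a l' = q / w then 1 else 0) := by
            have h5 : a l = w ↔ a l' = q / w := by
              constructor
              · intro h
                rw [hal, h]
              · intro h
                have hw : w ≠ 0 := by
                  rintro rfl
                  rw [div_zero] at h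
                  exact h0 l' hl' h
                rw [hal', h]
                field_simp
            have h6 : a l' = w ↔ a l = q / w := by
              constructor
              · intro h
                rw [hal', h]
              · intro h
                have hw : w ≠ 0 := by
                  rintro rfl
                  rw [div_zero] at h
                  exact h0 l hl h
                rw [hal, h]
                field_simp
            simp only [h5, h6]
            ring
          omega)
      have hmem : ∀ x, g x ≠ l ∧ g x ≠ l' ∧ g x ∈ T := by
        intro x
        have h1 := Finset.mem_erase.1 (hgT x)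
        have h2 := Finset.mem_erase.1 h1.2
        exact ⟨h2.1, h1.1, h2.2⟩
      let g' : Fin (m + 1) × Fin 2 → κ := fun x =>
        Fin.cases (if x.2 = 0 then l else l') (fun s => g (s, x.2)) x.1
      have hg0 : g' (0, 0) = l := rfl
      have hg1 : g' (0, 1) = l' := rfl
      have hgs : ∀ s ε, g' (Fin.succ s, ε) = g (s, ε) := fun s ε => rfl
      refine ⟨g', ?_, ?_, ?_⟩
      · rintro ⟨s, ε⟩ ⟨s', ε'⟩ h
        refine Fin.cases (motive := fun s => g' (s, ε) = g' (s', ε') → (s, ε) = (s', ε')) ?_ ?_ s h
        · refine Fin.cases (motive := fun s' => g' (0, ε) = g' (s', ε') → (0, ε) = (s', ε')) ?_ ?_ s'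
          · intro h
            fin_cases ε <;> fin_cases ε'
            · rfl
            · exact absurd h hne
            · exact absurd h.symm hne
            · rfl
          · intro t h
            fin_cases ε
            · exact absurd h.symm (hmem (t, ε')).1
            · exact absurd h.symm (hmem (t, ε')).2.1
        · intro t
          refine Fin.cases (motive := fun s' => g' (Fin.succ t, ε) = g' (s', ε') →
            (Fin.succ t, ε) = (s', ε')) ?_ ?_ s'
          · intro h
            fin_cases ε'
            · exact absurd h (hmem (t, ε)).1
            · exact absurd h (hmem (t, ε)).2.1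
          · intro t' h
            rw [hgs, hgs] at h
            have h1 := Prod.mk.inj (hg h)
            rw [h1.1, h1.2]
      · rintro ⟨s, ε⟩
        refine Fin.cases (motive := fun s => g' (s, ε) ∈ T) ?_ ?_ s
        · fin_cases ε
          · exact hl
          · exact hl'
        · intro t
          exact (hmem (t, ε)).2.2
      · intro s
        refine Fin.cases (motive := fun s => a (g' (s, 0)) * a (g' (s, 1)) = q) ?_ ?_ s
        · exact hll
        · intro t
          exact hgq t
    by_cases hA : ∃ l ∈ T, q / a l ≠ a l
    · obtain ⟨l, hl, hla⟩ := hA
      have h1 : 0 < (T.filter (fun x => a x = q / a l)).card := by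
        rw [← hcount (a l)]
        exact Finset.card_pos.2 ⟨l, Finset.mem_filter.2 ⟨hl, rfl⟩⟩
      obtain ⟨l', hl'⟩ := Finset.card_pos.1 h1
      obtain ⟨hl'T, hl'a⟩ := Finset.mem_filter.1 hl'
      refine step l hl l' hl'T ?_ ?_
      · rintro rfl
        exact hla hl'a.symm
      · rw [hl'a]
        have := h0 l hl
        field_simp
    · push Not at hA
      have hsq : ∀ l ∈ T, a l * a l = q := by
        intro l hl
        have h1 := hA l hl
        rw [div_eq_iff (h0 l hl)] at h1
        exact h1.symm
      by_cases hB : ∃ l ∈ T, ∃ l' ∈ T, l ≠ l' ∧ a l = a l'
      · obtain ⟨l, hl, l', hl', hne, hll⟩ := hB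
        refine step l hl l' hl' hne ?_
        rw [← hll]
        exact hsq l hl
      · push Not at hB
        exfalso
        have hcard : 1 < T.card := by omega
        obtain ⟨l, hl, l', hl', hne⟩ := Finset.one_lt_card.1 hcard
        have h1 : ∀ x ∈ T, ∀ y ∈ T, x ≠ y → a y = - a x := by
          intro x hx y hy hxy
          have h2 : (a y - a x) * (a y + a x) = 0 := by
            have h3 := hsq x hx
            have h4 := hsq y hy
            linear_combination h4 - h3
          rcases mul_eq_zero.1 h2 with h2 | h2
          · exact absurd (sub_eq_zero.1 h2).symm (hB x hx y hy hxy)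
          · linear_combination h2
        have h2 : T = {l, l'} := by
          ext x
          rw [Finset.mem_insert, Finset.mem_singleton]
          constructor
          · intro hx
            by_contra hcon
            push Not at hcon
            have h3 := h1 l hl x hx (Ne.symm hcon.1)
            have h4 := h1 l hl l' hl' hne
            exact hB x hx l' hl' hcon.2 (by rw [h3, h4])
          · rintro (rfl | rfl)
            · exact hl
            · exact hl'
        have h3 : m = 0 := by
          have h4 := Finset.card_pair hne
          rw [← h2, hT] at h4
          omega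
        subst h3
        have h4 : ∏ x ∈ T, a x = a l * a l' := by
          rw [h2, Finset.prod_pair hne]
        rw [h4, h1 l hl l' hl' hne] at hprod
        have h5 := hsq l hl
        have h6 : (2 : K) * q = 0 := by
          linear_combination -h5 - hprod
        rcases mul_eq_zero.1 h6 with h6 | h6
        · exact two_ne_zero h6
        · exact hq h6

/-- The same for a finite type. -/
theorem matching {K κ : Type} [Field K] [CharZero K] [DecidableEq K] [Fintype κ] (q : K)
    (hq : q ≠ 0) (a : κ → K) (m : ℕ) (hm : Fintype.card κ = 2 * m) (hprod : ∏ l, a l = q ^ m)
    (hcount : ∀ w, (Finset.univ.filter (fun l => a l = w)).card =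
      (Finset.univ.filter (fun l => a l = q / w)).card) :
    ∃ e : Fin m × Fin 2 ≃ κ, ∀ s, a (e (s, 0)) * a (e (s, 1)) = q := by
  classical
  obtain ⟨g, hg, _, hgq⟩ := matching_aux q hq a m Finset.univ (by rw [Finset.card_univ, hm]) hprod
    hcount
  refine ⟨Equiv.ofBijective g ((Fintype.bijective_iff_injective_and_card g).2 ⟨hg, ?_⟩), hgq⟩
  rw [Fintype.card_prod, Fintype.card_fin, Fintype.card_fin, hm, mul_comm]

end Pool.Agent.Q277.ZC
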