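import Mathlib
import Pool.Agent.Q271.ZC.Stm
import Pool.Agent.Q277.ZC.Basis
import Pool.Agent.Q277.ZC.Mat

/-!
# Tate classes on powers: jobs ZC-TL1 and ZC-TL2
-/

set_option autoImplicit false

namespace Pool.Agent.Q277.ZC

open Module Equiv Pool.Agent.H204R3.CM Pool.Agent.Q271.ZC

section

variable {K W X : Type} [Field K] [AddCommGroup W] [Module K W] {m : ℕ}

/-- The products of bilinear forms of weight `q`. -/
def prodT (G : W →ₗ[K] W) (q : ℕ) (m : ℕ) : Set ((Fin m × Fin 2 → W) → K) :=
  {g | ∃ (e : Perm (Fin m × Fin 2)) (B : Fin m → MultilinearMap K (fun _ : Fin 2 => W) K),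
    (∀ s u, B s (fun ε => G (u ε)) = (q : K) * B s u) ∧ g = fun v => ∏ s, B s (fun ε => v (e (s, ε)))}

/-- The alternation step. -/
theorem alt_step [CharZero K] (G : W →ₗ[K] W) (q : ℕ) (f : W [⋀^Fin m × Fin 2]→ₗ[K] K)
    (hf : (fun v => f v) ∈ Submodule.span K (prodT G q m)) :
    f ∈ Submodule.span K {g : W [⋀^Fin m × Fin 2]→ₗ[K] K |
      ∃ B : Fin m → W [⋀^Fin 2]→ₗ[K] K,
        (∀ l v, B l (fun i => G (v i)) = (q : K) * B l v) ∧
        ∀ v, g v = ∑ σ : Equiv.Perm (Fin m × Fin 2), (Equiv.Perm.sign σ : ℤ) *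
          ∏ l, B l ![v (σ (l, 0)), v (σ (l, 1))]} := by
  classical
  have hA : altFun (R := K) (fun v => f v) ∈
      Submodule.map (altFun (R := K)) (Submodule.span K (prodT G q m)) :=
    Submodule.mem_map_of_mem hf
  rw [Submodule.map_span, altFun_alt] at hA
  let Q : (W [⋀^Fin m × Fin 2]→ₗ[K] K) →ₗ[K] ((Fin m × Fin 2 → W) → K) :=
    { toFun := fun g v => g v
      map_add' := fun _ _ => rfl
      map_smul' := fun _ _ => rfl }
  have hQinj : Function.Injective Q := fun g g' h => AlternatingMap.ext fun v => congrFun h v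
  set 𝒯 : Set (W [⋀^Fin m × Fin 2]→ₗ[K] K) := {g |
      ∃ B : Fin m → W [⋀^Fin 2]→ₗ[K] K,
        (∀ l v, B l (fun i => G (v i)) = (q : K) * B l v) ∧
        ∀ v, g v = ∑ σ : Equiv.Perm (Fin m × Fin 2), (Equiv.Perm.sign σ : ℤ) *
          ∏ l, B l ![v (σ (l, 0)), v (σ (l, 1))]} with h𝒯
  have hsub : altFun (R := K) '' prodT G q m ⊆ (Submodule.span K 𝒯).map Q := by
    rintro _ ⟨_, ⟨e, B, hB, rfl⟩, rfl⟩
    let A : Fin m → W [⋀^Fin 2]→ₗ[K] K := fun s => MultilinearMap.alternatization (B s)
    let g : W [⋀^Fin m × Fin 2]→ₗ[K] K :=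
      MultilinearMap.alternatization (prodMap (fun s => (A s).toMultilinearMap))
    have hg : ∀ v, g v = ∑ σ : Perm (Fin m × Fin 2), ((Perm.sign σ : ℤ) : K) *
        ∏ s, A s (fun ε => v (σ (s, ε))) := by
      intro v
      change MultilinearMap.alternatization _ v = _
      rw [MultilinearMap.alternatization_apply]
      refine Finset.sum_congr rfl fun σ _ => ?_
      rw [Units.smul_def, zsmul_eq_mul]
      rfl
    have hgT : g ∈ 𝒯 := by
      refine ⟨A, fun s u => ?_, fun v => ?_⟩
      · change MultilinearMap.alternatization (B s) _ = _ * MultilinearMap.alternatization (B s) _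
        rw [MultilinearMap.alternatization_apply, MultilinearMap.alternatization_apply,
          Finset.mul_sum]
        refine Finset.sum_congr rfl fun σ _ => ?_
        rw [MultilinearMap.domDomCongr_apply, MultilinearMap.domDomCongr_apply,
          hB s (fun ε => u (σ ε)), Units.smul_def, Units.smul_def, zsmul_eq_mul, zsmul_eq_mul]
        ring
      · rw [hg v]
        refine Finset.sum_congr rfl fun σ _ => ?_
        congr 1
        refine Finset.prod_congr rfl fun s _ => ?_
        congr 1
        funext ε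
        fin_cases ε <;> rfl
    refine ⟨(((Perm.sign e : ℤ) : K) / 2 ^ m) • g,
      Submodule.smul_mem _ _ (Submodule.subset_span hgT), ?_⟩
    rw [map_smul]
    funext v
    have h2 : (Q g) v = (2 : K) ^ m * ∑ σ : Perm (Fin m × Fin 2), ((Perm.sign σ : ℤ) : K) *
        ∏ s, B s (fun ε => v (σ (s, ε))) := by
      change g v = _
      rw [hg v]
      exact alt_prod B v
    rw [Pi.smul_apply, h2, smul_eq_mul]
    have h3 : altFun (R := K) (fun v => ∏ s, B s (fun ε => v (e (s, ε)))) v =
        ((Perm.sign e : ℤ) : K) * ∑ σ : Perm (Fin m × Fin 2), ((Perm.sign σ : ℤ) : K) *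
          ∏ s, B s (fun ε => v (σ (s, ε))) := by
      change ∑ σ : Perm (Fin m × Fin 2), ((Perm.sign σ : ℤ) : K) *
        ∏ s, B s (fun ε => v (σ (e (s, ε)))) = _
      rw [Finset.mul_sum]
      refine Fintype.sum_equiv (Equiv.mulRight e) _ _ fun σ => ?_
      rw [Equiv.coe_mulRight, map_mul, Units.val_mul, Int.cast_mul]
      have h4 : ((Perm.sign e : ℤ) : K) * ((Perm.sign e : ℤ) : K) = 1 := by
        rw [← Int.cast_mul, ← Units.val_mul, Int.units_mul_self, Units.val_one, Int.cast_one]
      have h5 : ∏ s, B s (fun ε => v (σ (e (s, ε)))) = ∏ s, B s (fun ε => v ((σ * e) (s, ε))) := rfl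
      rw [h5]
      linear_combination -(((Perm.sign σ : ℤ) : K) * ∏ s, B s (fun ε => v ((σ * e) (s, ε)))) * h4
    rw [h3]
    have h6 : (2 : K) ^ m ≠ 0 := pow_ne_zero _ two_ne_zero
    field_simp
  have h1 : ((Fintype.card (Fin m × Fin 2)).factorial : K) • (fun v => f v) ∈
      (Submodule.span K 𝒯).map Q := Submodule.span_le.2 hsub hA
  have hne : ((Fintype.card (Fin m × Fin 2)).factorial : K) ≠ 0 :=
    Nat.cast_ne_zero.2 (Nat.factorial_ne_zero _)
  have h2 : (fun v => f v) ∈ (Submodule.span K 𝒯).map Q := by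
    have h3 := Submodule.smul_mem _ (((Fintype.card (Fin m × Fin 2)).factorial : K))⁻¹ h1
    rwa [smul_smul, inv_mul_cancel₀ hne, one_smul] at h3
  obtain ⟨f', hf', hff⟩ := h2
  have h3 : f' = f := hQinj hff
  rw [← h3]
  exact hf'

/-- The bilinear form `x y`, for two linear forms `x`, `y`. -/
noncomputable def bil (x y : W →ₗ[K] K) : MultilinearMap K (fun _ : Fin 2 => W) K :=
  (MultilinearMap.mkPiAlgebra K (Fin 2) K).compLinearMap ![x, y]

theorem bil_apply (x y : W →ₗ[K] K) (v : Fin 2 → W) : bil x y v = x (v 0) * y (v 1) := by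
  rw [bil, MultilinearMap.compLinearMap_apply, MultilinearMap.mkPiAlgebra_apply,
    Fin.prod_univ_two]
  rfl

variable [Fintype X] (e : Basis X K W) (z : X → K) (G : W →ₗ[K] W)

omit [Fintype X] in
/-- The coordinates are eigenvectors. -/
theorem coord_G (hG : ∀ x, G (e x) = z x • e x) (x : X) (v : W) :
    e.coord x (G v) = z x * e.coord x v := by
  classical
  have h : (e.coord x).comp G = z x • e.coord x := by
    apply e.ext
    intro y
    rw [LinearMap.comp_apply, hG, map_smul, LinearMap.smul_apply, Basis.coord_apply,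
      Basis.repr_self, smul_eq_mul, smul_eq_mul, Finsupp.single_apply]
    by_cases h : y = x
    · subst h
      rfl
    · rw [if_neg h, mul_zero, mul_zero]
  exact LinearMap.congr_fun h v

/-- The expansion of a multilinear form. -/
theorem expand {κ : Type} [Fintype κ] [DecidableEq κ] (f : MultilinearMap K (fun _ : κ => W) K) (v : κ → W) :
    f v = ∑ I : κ → X, f (fun l => e (I l)) * ∏ l, e.coord (I l) (v l) := by
  have h1 : v = fun l => ∑ x, e.coord x (v l) • e x := by
    funext l
    exact (e.sum_repr (v l)).symm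
  conv_lhs => rw [h1]
  rw [MultilinearMap.map_sum]
  refine Finset.sum_congr rfl fun I _ => ?_
  rw [MultilinearMap.map_smul_univ, smul_eq_mul, mul_comm]

/-- No exotic monomials: all Tate classes are generated in degree two. -/
theorem gen_of_no_exotic [CharZero K] (hG : ∀ x, G (e x) = z x • e x) (q : ℕ) (hq : 0 < q)
    (r : K → ℕ) (hr : ∀ w, Nat.card {x // z x = w} = r w)
    (hex : ∀ c : K →₀ ℕ, ¬ ExoticVec q r c) : TateGenerated G q := by
  classical
  intro m f hf
  have hq' : (q : K) ≠ 0 := Nat.cast_ne_zero.2 hq.ne'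
  apply alt_step
  have h1 : (fun v : Fin m × Fin 2 → W => f v) = ∑ I : Fin m × Fin 2 → X, f (fun l => e (I l)) •
      (fun v : Fin m × Fin 2 → W => ∏ l, e.coord (I l) (v l)) := by
    funext v
    rw [Finset.sum_apply]
    exact expand e f.toMultilinearMap v
  rw [h1]
  refine Submodule.sum_mem _ fun I _ => ?_
  by_cases hI : f (fun l => e (I l)) = 0
  · rw [hI, zero_smul]
    exact Submodule.zero_mem _
  refine Submodule.smul_mem _ _ (Submodule.subset_span ?_)
  -- the indices are different
  have hinj : Function.Injective I := by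
    intro l l' hll
    by_contra hne
    exact hI (f.map_eq_zero_of_eq _ (by simp only [hll]) hne)
  have hprod : ∏ l, z (I l) = (q : K) ^ m := by
    have h2 := hf (fun l => e (I l))
    have h3 : (fun l => G (e (I l))) = fun l => z (I l) • e (I l) := by
      funext l
      exact hG _
    rw [h3] at h2
    have h4 : f (fun l => z (I l) • e (I l)) = (∏ l, z (I l)) • f (fun l => e (I l)) :=
      f.toMultilinearMap.map_smul_univ (fun l => z (I l)) (fun l => e (I l))
    rw [h4, smul_eq_mul] at h2
    exact mul_right_cancel₀ hI h2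
  let c : K →₀ ℕ := ∑ l, Finsupp.single (z (I l)) 1
  have hc : ∀ w, c w = (Finset.univ.filter (fun l => z (I l) = w)).card := by
    intro w
    rw [Finset.card_filter]
    simp only [c, Finsupp.finsetSum_apply, Finsupp.single_apply]
  have hcount : ∀ w, c w = c (q / w) := by
    by_contra hcon
    push Not at hcon
    refine hex c ⟨fun w => ?_, ⟨m, ?_, ?_⟩, hcon⟩
    · rw [hc, ← hr, Nat.card_eq_fintype_card, Fintype.card_subtype]
      refine Finset.card_le_card_of_injOn I ?_ hinj.injOn
      intro l hl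
      have hl' := (Finset.mem_filter.1 (Finset.mem_coe.1 hl)).2
      exact Finset.mem_coe.2 (Finset.mem_filter.2 ⟨Finset.mem_univ _, hl'⟩)
    · have h2 : c.sum (fun _ k => k) = ∑ l : Fin m × Fin 2, 1 := by
        simp only [c]
        rw [← Finsupp.sum_finsetSum_index (fun _ => rfl) (fun _ _ _ => rfl)]
        refine Finset.sum_congr rfl fun l _ => ?_
        rw [Finsupp.sum_single_index rfl]
      rw [h2, Finset.sum_const, Finset.card_univ, Fintype.card_prod, Fintype.card_fin,
        Fintype.card_fin, smul_eq_mul, mul_one, mul_comm]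
    · have h2 : c.prod (fun z k => z ^ k) = ∏ l, z (I l) := by
        simp only [c]
        rw [← Finsupp.prod_finsetSum_index (fun _ => pow_zero _) (fun _ _ _ => pow_add _ _ _)]
        refine Finset.prod_congr rfl fun l _ => ?_
        rw [Finsupp.prod_single_index (pow_zero _), pow_one]
      rw [h2, hprod]
  obtain ⟨g, hg⟩ := matching (q : K) hq' (fun l => z (I l)) m (by
    rw [Fintype.card_prod, Fintype.card_fin, Fintype.card_fin, mul_comm]) hprod (by
    intro w
    rw [← hc, ← hc]
    exact hcount w)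
  refine ⟨g, fun s => bil (e.coord (I (g (s, 0)))) (e.coord (I (g (s, 1)))), ?_, ?_⟩
  · intro s u
    rw [bil_apply, bil_apply, coord_G e z G hG, coord_G e z G hG]
    have h2 : z (I (g (s, 0))) * z (I (g (s, 1))) = q := hg s
    linear_combination (e.coord (I (g (s, 0))) (u 0) * e.coord (I (g (s, 1))) (u 1)) * h2
  · funext v
    rw [← Equiv.prod_comp g, Fintype.prod_prod_type]
    refine Finset.prod_congr rfl fun s _ => ?_
    rw [Fin.prod_univ_two, bil_apply]

/-- An exotic monomial gives a Tate class which is not generated in degree two. -/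
theorem not_gen_of_exotic [CharZero K] (hG : ∀ x, G (e x) = z x • e x) (q : ℕ) (hq : 0 < q)
    (r : K → ℕ) (hr : ∀ w, Nat.card {x // z x = w} = r w) (c : K →₀ ℕ) (hc : ExoticVec q r c) :
    ¬ TateGenerated G q := by
  classical
  intro hgen
  obtain ⟨hle, ⟨m, hsum, hprod⟩, w₀, hw₀⟩ := hc
  have hq' : (q : K) ≠ 0 := Nat.cast_ne_zero.2 hq.ne'
  -- choose the variables
  have h1 : ∀ w, ∃ S : Finset X, S ⊆ Finset.univ.filter (fun x => z x = w) ∧ S.card = c w := by
    intro w
    apply Finset.exists_subset_card_eq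
    have h2 := hle w
    rw [← hr, Nat.card_eq_fintype_card, Fintype.card_subtype] at h2
    exact h2
  choose S hS hSc using h1
  let T : Finset X := Finset.univ.filter (fun x => x ∈ S (z x))
  have hT : ∀ w, T.filter (fun x => z x = w) = S w := by
    intro w
    ext x
    rw [Finset.mem_filter, Finset.mem_filter]
    constructor
    · rintro ⟨⟨_, h2⟩, rfl⟩
      exact h2
    · intro h2
      have h3 := (Finset.mem_filter.1 (hS w h2)).2
      subst h3
      exact ⟨⟨Finset.mem_univ _, h2⟩, rfl⟩
  have hfib : ∀ x ∈ T, z x ∈ c.support := by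
    intro x hx
    rw [Finsupp.mem_support_iff, ← hSc]
    exact Finset.card_ne_zero_of_mem (Finset.mem_filter.1 hx).2
  have hTcard : T.card = 2 * m := by
    rw [Finset.card_eq_sum_card_fiberwise hfib, ← hsum]
    refine Finset.sum_congr rfl fun w _ => ?_
    rw [hT, hSc]
  have hTprod : ∏ x ∈ T, z x = (q : K) ^ m := by
    rw [← hprod, ← Finset.prod_fiberwise_of_maps_to hfib]
    refine Finset.prod_congr rfl fun w _ => ?_
    rw [hT, Finset.prod_congr rfl (fun x hx => (Finset.mem_filter.1 (hS w hx)).2),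
      Finset.prod_const, hSc]
  let ε : Fin m × Fin 2 ≃ T := Fintype.equivOfCardEq (by
    rw [Fintype.card_prod, Fintype.card_fin, Fintype.card_fin, Fintype.card_coe, hTcard, mul_comm])
  let I : Fin m × Fin 2 → X := fun l => (ε l).1
  have hinj : Function.Injective I := fun l l' h => ε.injective (Subtype.ext h)
  have hIprod : ∏ l, z (I l) = (q : K) ^ m := by
    rw [← hTprod, ← Finset.prod_coe_sort T (fun x => z x)]
    exact Equiv.prod_comp ε (fun x : T => z x)
  have hcount : ∀ w, c w = (Finset.univ.filter (fun l => z (I l) = w)).card := by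
    intro w
    rw [← hSc, ← hT]
    symm
    refine Finset.card_bij (fun l _ => I l) ?_ (fun l _ l' _ h => hinj h) ?_
    · intro l hl
      exact Finset.mem_filter.2 ⟨(ε l).2, (Finset.mem_filter.1 hl).2⟩
    · intro x hx
      obtain ⟨hx1, hx2⟩ := Finset.mem_filter.1 hx
      refine ⟨ε.symm ⟨x, hx1⟩, ?_, ?_⟩
      · refine Finset.mem_filter.2 ⟨Finset.mem_univ _, ?_⟩
        simp only [I, Equiv.apply_symm_apply]
        exact hx2
      · simp only [I, Equiv.apply_symm_apply]
  -- the form
  let p : MultilinearMap K (fun _ : Fin m × Fin 2 => W) K :=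
    (MultilinearMap.mkPiAlgebra K (Fin m × Fin 2) K).compLinearMap (fun l => e.coord (I l))
  have hp : ∀ v, p v = ∏ l, e.coord (I l) (v l) := by
    intro v
    rw [MultilinearMap.compLinearMap_apply, MultilinearMap.mkPiAlgebra_apply]
  let f : W [⋀^Fin m × Fin 2]→ₗ[K] K := MultilinearMap.alternatization p
  have hf : ∀ v, f v = ∑ σ : Perm (Fin m × Fin 2), ((Perm.sign σ : ℤ) : K) *
      ∏ l, e.coord (I l) (v (σ l)) := by
    intro v
    change MultilinearMap.alternatization _ v = _
    rw [MultilinearMap.alternatization_apply]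
    refine Finset.sum_congr rfl fun σ _ => ?_
    rw [Units.smul_def, zsmul_eq_mul, MultilinearMap.domDomCongr_apply, hp]
  have hfG : ∀ v, f (fun l => G (v l)) = (q : K) ^ m * f v := by
    intro v
    rw [hf, hf, Finset.mul_sum]
    refine Finset.sum_congr rfl fun σ _ => ?_
    simp only [coord_G e z G hG]
    rw [Finset.prod_mul_distrib, hIprod]
    ring
  have hf1 : f (fun l => e (I l)) = 1 := by
    rw [hf, Finset.sum_eq_single 1]
    · rw [Perm.sign_one, Units.val_one, Int.cast_one, one_mul]
      refine Finset.prod_eq_one fun l _ => ?_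
      rw [Perm.one_apply, Basis.coord_apply, Basis.repr_self, Finsupp.single_eq_same]
    · intro σ _ hσ
      have h2 : ∃ l, σ l ≠ l := by
        by_contra hcon
        push Not at hcon
        exact hσ (Equiv.ext hcon)
      obtain ⟨l, hl⟩ := h2
      rw [Finset.prod_eq_zero (Finset.mem_univ l), mul_zero]
      rw [Basis.coord_apply, Basis.repr_self, Finsupp.single_eq_of_ne]
      intro h3
      exact hl (hinj h3).symm
    · intro h2
      exact absurd (Finset.mem_univ _) h2
  -- a product of bilinear forms with the same coefficient not zero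
  have hmem := hgen m f hfG
  have hex : ∃ g ∈ {g : W [⋀^Fin m × Fin 2]→ₗ[K] K | ∃ B : Fin m → W [⋀^Fin 2]→ₗ[K] K,
      (∀ l v, B l (fun i => G (v i)) = (q : K) * B l v) ∧
        ∀ v, g v = ∑ σ : Equiv.Perm (Fin m × Fin 2), (Equiv.Perm.sign σ : ℤ) *
          ∏ l, B l ![v (σ (l, 0)), v (σ (l, 1))]}, g (fun l => e (I l)) ≠ 0 := by
    by_contra hcon
    push Not at hcon
    have h2 : ∀ g ∈ Submodule.span K {g : W [⋀^Fin m × Fin 2]→ₗ[K] K |
        ∃ B : Fin m → W [⋀^Fin 2]→ₗ[K] K, (∀ l v, B l (fun i => G (v i)) = (q : K) * B l v) ∧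
        ∀ v, g v = ∑ σ : Equiv.Perm (Fin m × Fin 2), (Equiv.Perm.sign σ : ℤ) *
          ∏ l, B l ![v (σ (l, 0)), v (σ (l, 1))]}, g (fun l => e (I l)) = 0 := by
      intro g hg
      induction hg using Submodule.span_induction with
      | mem g hg => exact hcon g hg
      | zero => rfl
      | add a b _ _ ha hb => rw [AlternatingMap.add_apply, ha, hb, add_zero]
      | smul t a _ ha => rw [AlternatingMap.smul_apply, ha, smul_zero]
    rw [h2 f hmem] at hf1
    exact zero_ne_one hf1
  obtain ⟨g, ⟨B, hB, hgB⟩, hg⟩ := hex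
  rw [hgB] at hg
  obtain ⟨σ, _, hσ⟩ := Finset.exists_ne_zero_of_sum_ne_zero hg
  have hσ' := right_ne_zero_of_mul hσ
  have hpair : ∀ l, z (I (σ (l, 0))) * z (I (σ (l, 1))) = q := by
    intro l
    have h2 := (Finset.prod_ne_zero_iff.1 hσ') l (Finset.mem_univ _)
    have h3 := hB l ![e (I (σ (l, 0))), e (I (σ (l, 1)))]
    have h4 : (fun i => G ((![e (I (σ (l, 0))), e (I (σ (l, 1)))] : Fin 2 → W) i)) =
        fun i => (![z (I (σ (l, 0))), z (I (σ (l, 1)))] : Fin 2 → K) i •
          (![e (I (σ (l, 0))), e (I (σ (l, 1)))] : Fin 2 → W) i := by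
      funext i
      fin_cases i
      · exact hG _
      · exact hG _
    rw [h4] at h3
    have h5 : B l (fun i => (![z (I (σ (l, 0))), z (I (σ (l, 1)))] : Fin 2 → K) i •
          (![e (I (σ (l, 0))), e (I (σ (l, 1)))] : Fin 2 → W) i) =
        (∏ i, (![z (I (σ (l, 0))), z (I (σ (l, 1)))] : Fin 2 → K) i) •
          B l ![e (I (σ (l, 0))), e (I (σ (l, 1)))] :=
      (B l).toMultilinearMap.map_smul_univ _ _
    rw [h5, Fin.prod_univ_two, smul_eq_mul] at h3
    exact mul_right_cancel₀ h2 h3
  -- the word is symmetric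
  have hsym : ∀ w, c w = c (q / w) := by
    intro w
    by_cases hw : w = 0
    · rw [hw, div_zero]
    rw [hcount, hcount]
    let sw : Perm (Fin m × Fin 2) := Equiv.prodCongr (Equiv.refl _) (Equiv.swap 0 1)
    have hsw : ∀ l, z (I (σ l)) * z (I (σ (sw l))) = q := by
      rintro ⟨l, i⟩
      fin_cases i
      · exact hpair l
      · change z (I (σ (l, 1))) * z (I (σ (l, 0))) = q
        rw [mul_comm]
        exact hpair l
    have hsw2 : ∀ l, sw (sw l) = l := by
      rintro ⟨l, i⟩
      fin_cases i <;> rfl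
    refine Finset.card_bij' (fun l _ => σ (sw (σ.symm l))) (fun l _ => σ (sw (σ.symm l))) ?_ ?_ ?_ ?_
    · intro l hl
      have h2 := (Finset.mem_filter.1 hl).2
      refine Finset.mem_filter.2 ⟨Finset.mem_univ _, ?_⟩
      have h3 := hsw (σ.symm l)
      rw [Equiv.apply_symm_apply, h2] at h3
      rw [← h3, mul_div_cancel_left₀ _ hw]
    · intro l hl
      have h2 := (Finset.mem_filter.1 hl).2
      refine Finset.mem_filter.2 ⟨Finset.mem_univ _, ?_⟩
      have h3 := hsw (σ.symm l)
      rw [Equiv.apply_symm_apply, h2] at h3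
      have h4 : z (I (σ (sw (σ.symm l)))) * q = w * q := by
        have h5 : (q : K) / w * w = q := div_mul_cancel₀ _ hw
        calc z (I (σ (sw (σ.symm l)))) * q = (q / w * z (I (σ (sw (σ.symm l))))) * w := by
              rw [mul_right_comm, h5, mul_comm]
          _ = w * q := by rw [h3, mul_comm]
      exact mul_right_cancel₀ hq' h4
    · intro l _
      rw [Equiv.symm_apply_apply, hsw2, Equiv.apply_symm_apply]
    · intro l _
      rw [Equiv.symm_apply_apply, hsw2, Equiv.apply_symm_apply]
  exact hw₀ (hsym w₀)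

end

/-- JOB ZC-TL1. -/
theorem tl1 : Pool.Agent.Q271.ZC.S_TL1 := by
  intro K V _ _ _ _ _ _ F q n hq hF hex
  obtain ⟨X, _, e, z, hG, hr⟩ := exists_eigenbasis F hF n
  exact gen_of_no_exotic e z _ hG q hq _ hr hex

/-- JOB ZC-TL2. -/
theorem tl2 : Pool.Agent.Q271.ZC.S_TL2 := by
  intro K V _ _ _ _ _ _ F q n hq hF c hc
  obtain ⟨X, _, e, z, hG, hr⟩ := exists_eigenbasis F hF n
  exact not_gen_of_exotic e z _ hG q hq _ hr c hc

end Pool.Agent.Q277.ZC
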